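import Pool.Agent.NH97.Band.Geo

/-!
# Band unfoldings (helper97): the example, computations with rational numbers
-/

set_option autoImplicit false

namespace Pool.Agent.NH97.Band

abbrev Q2 : Type := ℚ × ℚ

/-- the base -/
def bq : Fin 6 → Q2 := ![(0, 0), (81, 0), (201, 22), (168, 78), (90, 182), (24, 70)]

/-- top minus base -/
def wq : Fin 6 → Q2 := ![(-28/5, -4), (4/11, -4), (108/17, -148/51), (10/3, 20/9), (-2/5, 36/5),
  (-84/23, 116/69)]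

/-- the top -/
def aq (i : Fin 6) : Q2 := bq i + wq i

/-- lengths of the base edges -/
def Lq : Fin 6 → ℚ := ![81, 122, 65, 130, 130, 74]

/-- horizontal overhang at the vertices -/
def tq : Fin 6 → ℚ := ![28/5, 4/11, 292/51, 2/9, 6, 28/69]

/-- determinant -/
def crq (u v : Q2) : ℚ := u.1 * v.2 - u.2 * v.1

/-- product of Gaussian numbers -/
def gm (u v : Q2) : Q2 := (u.1 * v.1 - u.2 * v.2, u.1 * v.2 + u.2 * v.1)

/-- planar model of the lateral face -/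
def Mq (m : Fin 6) : Fin 4 → Q2 := ![(0, 0), (Lq m, 0), (Lq m + tq (m + 1), 5), (-tq m, 5)]

/-- planar (mirrored) model of the base -/
def Nq (v : Fin 6) : Q2 := ((bq v).1, -(bq v).2)

/-- vertices of the lateral faces in space -/
def Vq (m : Fin 6) : Fin 4 → Q2 × ℚ := ![(bq m, 0), (bq (m + 1), 0), (aq (m + 1), 3), (aq m, 3)]

def sq2 (u v : Q2) : ℚ := (u.1 - v.1) * (u.1 - v.1) + (u.2 - v.2) * (u.2 - v.2)

def sq3 (u v : Q2 × ℚ) : ℚ := sq2 u.1 v.1 + (u.2 - v.2) * (u.2 - v.2)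

/-- rotation from the frame of face `m + 1` to the frame of face `m` -/
def rq (m : Fin 6) : Q2 :=
  ((25 - tq (m + 1) * tq (m + 1)) / (25 + tq (m + 1) * tq (m + 1)),
    (-10 * tq (m + 1)) / (25 + tq (m + 1) * tq (m + 1)))

/-- from the frame of face `m + 1` to the frame of face `m` -/
def Tq (m : Fin 6) (z : Q2) : Q2 := (Lq m, 0) + gm (rq m) z

/-- from the model of the base to the frame of face `k` -/
def sg (k : Fin 6) : Q2 := ((bq (k + 1) - bq k).1 / Lq k, (bq (k + 1) - bq k).2 / Lq k)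

def TBq (k : Fin 6) (z : Q2) : Q2 := gm (sg k) (z - Nq k)

/-- iteration -/
def adv : ℕ → Fin 6 → Fin 6
  | 0, k => k
  | r + 1, k => adv r (k + 1)

def it : ℕ → Fin 6 → Q2 → Q2
  | 0, _, z => z
  | r + 1, k, z => Tq k (it r (k + 1) z)

/-- the side edges between face `k` and face `k + r` are uncut -/
def okq (i : Fin 6) : ℕ → Fin 6 → Bool
  | 0, _ => true
  | r + 1, k => decide (k + 1 ≠ i) && okq i r (k + 1)

/-- `W` is in the interior of the triangle -/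
def inq (P Q R W : Q2) : Prop :=
  0 < crq (Q - P) (W - P) ∧ 0 < crq (R - Q) (W - Q) ∧ 0 < crq (P - R) (W - R)

instance (P Q R W : Q2) : Decidable (inq P Q R W) := by unfold inq; infer_instance

/-- an overlap of the base attached at face `adv rB f0` and the face `adv rF f0` -/
structure Ent where
  f0 : Fin 6
  rB : ℕ
  rF : ℕ
  u1 : Fin 6
  u2 : Fin 6
  u3 : Fin 6
  v1 : Fin 4
  v2 : Fin 4
  v3 : Fin 4
  W : Q2

def chk (e : Ent) : Prop :=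
  inq (it e.rB e.f0 (TBq (adv e.rB e.f0) (Nq e.u1))) (it e.rB e.f0 (TBq (adv e.rB e.f0) (Nq e.u2)))
    (it e.rB e.f0 (TBq (adv e.rB e.f0) (Nq e.u3))) e.W ∧
  inq (it e.rF e.f0 (Mq (adv e.rF e.f0) e.v1)) (it e.rF e.f0 (Mq (adv e.rF e.f0) e.v2))
    (it e.rF e.f0 (Mq (adv e.rF e.f0) e.v3)) e.W

instance (e : Ent) : Decidable (chk e) := by unfold chk; infer_instance

def tab : List Ent :=
  [⟨0, 0, 2, 3, 2, 1, 0, 1, 3, (401/2, -45/2)⟩,
   ⟨3, 3, 0, 5, 4, 3, 0, 1, 2, (78, 1)⟩,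
   ⟨5, 2, 0, 5, 1, 0, 0, 1, 2, (71, 1/4)⟩,
   ⟨1, 0, 3, 5, 4, 3, 0, 1, 3, (40, -173)⟩,
   ⟨2, 0, 2, 5, 4, 3, 0, 1, 3, (387/2, -31/2)⟩,
   ⟨5, 3, 0, 5, 1, 0, 0, 1, 3, (24, 1)⟩,
   ⟨1, 2, 0, 3, 2, 1, 0, 1, 2, (241/2, 1/8)⟩,
   ⟨3, 0, 3, 5, 1, 0, 0, 1, 2, (36, -176)⟩,
   ⟨4, 0, 2, 5, 1, 0, 0, 1, 3, (607/3, -15)⟩,
   ⟨1, 3, 0, 3, 2, 1, 0, 1, 2, (78, 1)⟩,
   ⟨3, 2, 0, 5, 4, 3, 0, 1, 2, (124, 1/2)⟩,
   ⟨5, 0, 3, 3, 2, 1, 0, 1, 2, (-13, -180)⟩]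

theorem chk_all : ∀ e ∈ tab, chk e := by decide +kernel

theorem cover : ∀ i k : Fin 6, ∃ e ∈ tab, adv e.rB e.f0 = k ∧ okq i e.rB e.f0 = true ∧
    okq i e.rF e.f0 = true := by decide +kernel

theorem dist_lat : ∀ (m : Fin 6) (u v : Fin 4), sq3 (Vq m u) (Vq m v) = sq2 (Mq m u) (Mq m v) := by
  decide +kernel

theorem a_convq : ∀ i j : Fin 6, j ≠ i → j ≠ i + 1 →
    0 < crq (aq (i + 1) - aq i) (aq j - aq i) := by decide +kernel

theorem b_convq : ∀ i j : Fin 6, j ≠ i → j ≠ i + 1 →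
    0 < crq (bq (i + 1) - bq i) (bq j - bq i) := by decide +kernel

def ratq (i : Fin 6) : ℚ := Lq i / (Lq i + tq i + tq (i + 1))

theorem parq : ∀ i : Fin 6, 0 < ratq i ∧
    (bq (i + 1) - bq i).1 = ratq i * (aq (i + 1) - aq i).1 ∧
    (bq (i + 1) - bq i).2 = ratq i * (aq (i + 1) - aq i).2 := by decide +kernel

theorem rq_eq : ∀ m : Fin 6, gm (rq m) (Mq (m + 1) 3 - Mq (m + 1) 0) = Mq m 2 - Mq m 1 := by
  decide +kernel

theorem sg_eq : ∀ k : Fin 6, gm (sg k) (Nq (k + 1) - Nq k) = Mq k 1 - Mq k 0 := by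
  decide +kernel

theorem side_a : ∀ m : Fin 6, 0 < crq (Mq m 2 - Mq m 1) (Mq m 0 - Mq m 1) := by decide +kernel
theorem side_b : ∀ m : Fin 6, crq (Mq m 3 - Mq m 0) (Mq m 1 - Mq m 0) < 0 := by decide +kernel
theorem side_c : ∀ m : Fin 6, 0 < crq (Mq m 1 - Mq m 0) (Mq m 2 - Mq m 0) := by decide +kernel
theorem side_d : ∀ k : Fin 6, crq (Nq (k + 1) - Nq k) (Nq (k + 2) - Nq k) < 0 := by decide +kernel

end Pool.Agent.NH97.Band
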