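import Mathlib

/-!
# Band unfoldings of prismoids (MP_1500ab_co): definitions (helper97)

A prismoid is given by two strictly convex polygons `a`, `b` with vertices in counterclockwise
order and with corresponding edges parallel (and equally directed), placed in the planes of height
`h > 0` and `0`.  A net of a band unfolding is a family of maps of the faces to the Euclidean
plane `ℂ` which preserve distances, agree on the uncut edges and have images with disjoint
interiors.
-/

set_option autoImplicit false

namespace Pool.Agent.NH97.Band

/-- Euclidean 3-space -/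
abbrev E3 : Type := EuclideanSpace ℝ (Fin 3)

/-- The determinant of two plane vectors. -/
def cr (u v : ℝ × ℝ) : ℝ := u.1 * v.2 - u.2 * v.1

/-- A prismoid: `a` are the vertices of the top, `b` the vertices of the base (seen from above),
`h` is the height. Both polygons are strictly convex with vertices in counterclockwise order, and
corresponding edges are parallel with the same direction (so the polygons are equiangular). -/
structure Prismoid (n : ℕ) [NeZero n] where
  three_le : 3 ≤ n
  a : Fin n → ℝ × ℝ
  b : Fin n → ℝ × ℝ
  h : ℝ
  h_pos : 0 < h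
  a_conv : ∀ i j : Fin n, j ≠ i → j ≠ i + 1 → 0 < cr (a (i + 1) - a i) (a j - a i)
  b_conv : ∀ i j : Fin n, j ≠ i → j ≠ i + 1 → 0 < cr (b (i + 1) - b i) (b j - b i)
  parallel : ∀ i : Fin n, ∃ r : ℝ, 0 < r ∧ b (i + 1) - b i = r • (a (i + 1) - a i)

/-- The faces: the lateral faces `lat m` with the vertices `a_m, a_(m+1), b_(m+1), b_m`, the top
and the base. -/
inductive Face (n : ℕ) : Type
  | lat (m : Fin n) : Face n
  | top : Face n
  | base : Face n

section
variable {n : ℕ} [NeZero n] (P : Prismoid n)

/-- The vertex `a_i` in space. -/
noncomputable def Prismoid.A (i : Fin n) : E3 := !₂[(P.a i).1, (P.a i).2, P.h]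

/-- The vertex `b_i` in space. -/
noncomputable def Prismoid.B (i : Fin n) : E3 := !₂[(P.b i).1, (P.b i).2, 0]

/-- The faces as subsets of space. -/
noncomputable def Prismoid.face : Face n → Set E3
  | .lat m => convexHull ℝ {P.B m, P.B (m + 1), P.A (m + 1), P.A m}
  | .top => convexHull ℝ (Set.range P.A)
  | .base => convexHull ℝ (Set.range P.B)

/-- `φ` is a nonoverlapping band unfolding of the prismoid `P` in the plane `ℂ`: the cut edges are
the side edge `(a_i, b_i)`, all edges of the top except `(a_j, a_(j+1))` and all edges of the base
except `(b_k, b_(k+1))`. Every face is mapped isometrically, the maps of two faces agree on a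
common uncut edge, and the images of distinct faces have disjoint interiors. -/
structure IsBandNet (i j k : Fin n) (φ : Face n → E3 → ℂ) : Prop where
  isom : ∀ F, ∀ x ∈ P.face F, ∀ y ∈ P.face F, dist (φ F x) (φ F y) = dist x y
  side : ∀ m : Fin n, m + 1 ≠ i → ∀ x ∈ segment ℝ (P.B (m + 1)) (P.A (m + 1)),
    φ (.lat m) x = φ (.lat (m + 1)) x
  top : ∀ x ∈ segment ℝ (P.A j) (P.A (j + 1)), φ (.lat j) x = φ .top x
  base : ∀ x ∈ segment ℝ (P.B k) (P.B (k + 1)), φ (.lat k) x = φ .base x
  disj : ∀ F G, F ≠ G → Disjoint (interior (φ F '' P.face F)) (interior (φ G '' P.face G))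

end

end Pool.Agent.NH97.Band
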