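import Pool.Agent.NH97.Band.Defs

/-!
# Band unfoldings (helper97): plane geometry
-/

set_option autoImplicit false

namespace Pool.Agent.NH97.Band

open Complex

/-- cross product in `ℂ` -/
def cx (u v : ℂ) : ℝ := u.re * v.im - u.im * v.re

/-- isometries of the plane -/
def IsIso (g : ℂ → ℂ) : Prop :=
  ∃ c t : ℂ, normSq c = 1 ∧ ((∀ z, g z = t + c * z) ∨ (∀ z, g z = t + c * (starRingEnd ℂ) z))

theorem tri_bary {P Q R W : ℂ} (h1 : 0 < cx (Q - P) (W - P)) (h2 : 0 < cx (R - Q) (W - Q))
    (h3 : 0 < cx (P - R) (W - R)) : 0 < cx (Q - P) (R - P) ∧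
    ∃ α β γ : ℝ, 0 < α ∧ 0 < β ∧ 0 < γ ∧ α + β + γ = 1 ∧
      W = (α : ℂ) * P + (β : ℂ) * Q + (γ : ℂ) * R := by
  have hD : cx (Q - P) (R - P) = cx (Q - P) (W - P) + cx (R - Q) (W - Q) + cx (P - R) (W - R) := by
    unfold cx
    simp only [sub_re, sub_im]
    ring
  have hDp : 0 < cx (Q - P) (R - P) := by rw [hD]; positivity
  refine ⟨hDp, cx (R - Q) (W - Q) / cx (Q - P) (R - P), cx (P - R) (W - R) / cx (Q - P) (R - P),
    cx (Q - P) (W - P) / cx (Q - P) (R - P), by positivity, by positivity, by positivity, ?_, ?_⟩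
  · rw [← add_div, ← add_div, div_eq_one_iff_eq hDp.ne', hD]
    ring
  · have hne := hDp.ne'
    generalize hd : cx (Q - P) (R - P) = D at *
    apply Complex.ext
    · simp only [add_re, mul_re, ofReal_re, ofReal_im, zero_mul, sub_zero]
      field_simp
      rw [← hd]
      unfold cx
      simp only [sub_re, sub_im]
      ring
    · simp only [add_im, mul_im, ofReal_re, ofReal_im, zero_mul, add_zero]
      field_simp
      rw [← hd]
      unfold cx
      simp only [sub_re, sub_im]
      ring

theorem bary_mem_hull {P Q R : ℂ} {α β γ : ℝ} (hα : 0 < α) (hβ : 0 < β) (hγ : 0 < γ)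
    (hs : α + β + γ = 1) :
    (α : ℂ) * P + (β : ℂ) * Q + (γ : ℂ) * R ∈ convexHull ℝ ({P, Q, R} : Set ℂ) := by
  have hc := convex_convexHull ℝ ({P, Q, R} : Set ℂ)
  have hP : P ∈ convexHull ℝ ({P, Q, R} : Set ℂ) := subset_convexHull ℝ _ (by simp)
  have hQ : Q ∈ convexHull ℝ ({P, Q, R} : Set ℂ) := subset_convexHull ℝ _ (by simp)
  have hR : R ∈ convexHull ℝ ({P, Q, R} : Set ℂ) := subset_convexHull ℝ _ (by simp)
  have hab : 0 < α + β := by positivity
  have h1 : (α / (α + β)) • P + (β / (α + β)) • Q ∈ convexHull ℝ ({P, Q, R} : Set ℂ) :=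
    hc hP hQ (by positivity) (by positivity) (by rw [← add_div, div_self hab.ne'])
  have h2 := hc h1 hR hab.le hγ.le hs
  have e : (α : ℂ) * P + (β : ℂ) * Q + (γ : ℂ) * R =
      (α + β) • ((α / (α + β)) • P + (β / (α + β)) • Q) + γ • R := by
    simp only [real_smul, smul_add]
    have hne : ((α : ℂ) + β) ≠ 0 := by
      rw [← ofReal_add]
      exact ofReal_ne_zero.mpr hab.ne'
    push_cast
    field_simp
  rw [e]
  exact h2

theorem cx_cont (u v : ℂ) : Continuous fun z : ℂ => cx u (z - v) := by
  unfold cx
  simp only [sub_re, sub_im]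
  fun_prop

theorem mem_interior_tri {P Q R : ℂ} (h : cx (Q - P) (R - P) ≠ 0) {α β γ : ℝ} (hα : 0 < α)
    (hβ : 0 < β) (hγ : 0 < γ) (hs : α + β + γ = 1) :
    (α : ℂ) * P + (β : ℂ) * Q + (γ : ℂ) * R ∈ interior (convexHull ℝ ({P, Q, R} : Set ℂ)) := by
  rw [mem_interior]
  refine ⟨{z | 0 < cx (R - Q) (z - Q) / cx (Q - P) (R - P) ∧
    0 < cx (P - R) (z - R) / cx (Q - P) (R - P) ∧
    0 < cx (Q - P) (z - P) / cx (Q - P) (R - P)}, ?_, ?_, ?_⟩
  · rintro z ⟨h1, h2, h3⟩
    have hs' : cx (R - Q) (z - Q) / cx (Q - P) (R - P) + cx (P - R) (z - R) / cx (Q - P) (R - P) +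
      cx (Q - P) (z - P) / cx (Q - P) (R - P) = 1 := by
      rw [← add_div, ← add_div, div_eq_one_iff_eq h]
      unfold cx
      simp only [sub_re, sub_im]
      ring
    have e := bary_mem_hull (P := P) (Q := Q) (R := R) h1 h2 h3 hs'
    have hz : z = ((cx (R - Q) (z - Q) / cx (Q - P) (R - P) : ℝ) : ℂ) * P +
        ((cx (P - R) (z - R) / cx (Q - P) (R - P) : ℝ) : ℂ) * Q +
        ((cx (Q - P) (z - P) / cx (Q - P) (R - P) : ℝ) : ℂ) * R := by
      generalize hd : cx (Q - P) (R - P) = D at *
      apply Complex.ext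
      · simp only [add_re, mul_re, ofReal_re, ofReal_im, zero_mul, sub_zero]
        field_simp
        rw [← hd]
        unfold cx
        simp only [sub_re, sub_im]
        ring
      · simp only [add_im, mul_im, ofReal_re, ofReal_im, zero_mul, add_zero]
        field_simp
        rw [← hd]
        unfold cx
        simp only [sub_re, sub_im]
        ring
    rw [hz]
    exact e
  · apply IsOpen.inter
    · exact isOpen_lt continuous_const ((cx_cont _ _).div_const _)
    · apply IsOpen.inter
      · exact isOpen_lt continuous_const ((cx_cont _ _).div_const _)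
      · exact isOpen_lt continuous_const ((cx_cont _ _).div_const _)
  · have k1 : cx (R - Q) ((α : ℂ) * P + (β : ℂ) * Q + (γ : ℂ) * R - Q) =
        α * cx (Q - P) (R - P) := by
      have : α = 1 - β - γ := by linarith
      unfold cx
      simp only [sub_re, sub_im, add_re, add_im, mul_re, mul_im, ofReal_re, ofReal_im, zero_mul,
        sub_zero, add_zero]
      rw [this]
      ring
    have k2 : cx (P - R) ((α : ℂ) * P + (β : ℂ) * Q + (γ : ℂ) * R - R) =
        β * cx (Q - P) (R - P) := by
      have : α = 1 - β - γ := by linarith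
      unfold cx
      simp only [sub_re, sub_im, add_re, add_im, mul_re, mul_im, ofReal_re, ofReal_im, zero_mul,
        sub_zero, add_zero]
      rw [this]
      ring
    have k3 : cx (Q - P) ((α : ℂ) * P + (β : ℂ) * Q + (γ : ℂ) * R - P) =
        γ * cx (Q - P) (R - P) := by
      have : α = 1 - β - γ := by linarith
      unfold cx
      simp only [sub_re, sub_im, add_re, add_im, mul_re, mul_im, ofReal_re, ofReal_im, zero_mul,
        sub_zero, add_zero]
      rw [this]
      ring
    refine ⟨?_, ?_, ?_⟩
    · rw [k1, mul_div_cancel_right₀ _ h]; exact hα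
    · rw [k2, mul_div_cancel_right₀ _ h]; exact hβ
    · rw [k3, mul_div_cancel_right₀ _ h]; exact hγ

theorem iso_affine {g : ℂ → ℂ} (hg : IsIso g) {P Q R : ℂ} {α β γ : ℝ} (hs : α + β + γ = 1) :
    g ((α : ℂ) * P + (β : ℂ) * Q + (γ : ℂ) * R) =
      (α : ℂ) * g P + (β : ℂ) * g Q + (γ : ℂ) * g R := by
  have hs' : (α : ℂ) + β + γ = 1 := by exact_mod_cast hs
  obtain ⟨c, t, _, h | h⟩ := hg
  · rw [h, h, h, h]
    linear_combination (-t) * hs'
  · rw [h, h, h, h]
    simp only [map_add, map_mul, conj_ofReal]
    linear_combination (-t) * hs'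

theorem iso_cx {g : ℂ → ℂ} (hg : IsIso g) (P Q R : ℂ) :
    cx (g Q - g P) (g R - g P) = cx (Q - P) (R - P) ∨
      cx (g Q - g P) (g R - g P) = -cx (Q - P) (R - P) := by
  obtain ⟨c, t, hc, h | h⟩ := hg
  · left
    rw [h, h, h]
    rw [normSq_apply] at hc
    unfold cx
    simp only [sub_re, sub_im, add_re, add_im, mul_re, mul_im]
    linear_combination ((Q.re - P.re) * (R.im - P.im) - (Q.im - P.im) * (R.re - P.re)) * hc
  · right
    rw [h, h, h]
    rw [normSq_apply] at hc
    unfold cx
    simp only [sub_re, sub_im, add_re, add_im, mul_re, mul_im, conj_re, conj_im]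
    linear_combination (-((Q.re - P.re) * (R.im - P.im) - (Q.im - P.im) * (R.re - P.re))) * hc

/-- a point in the interior of a triangle of the model gives a point in the interior of the image -/
theorem iso_interior {g : ℂ → ℂ} (hg : IsIso g) {P Q R W : ℂ} (h1 : 0 < cx (Q - P) (W - P))
    (h2 : 0 < cx (R - Q) (W - Q)) (h3 : 0 < cx (P - R) (W - R)) :
    g W ∈ interior (convexHull ℝ ({g P, g Q, g R} : Set ℂ)) := by
  obtain ⟨hD, α, β, γ, hα, hβ, hγ, hs, hW⟩ := tri_bary h1 h2 h3
  rw [hW, iso_affine hg hs]
  apply mem_interior_tri _ hα hβ hγ hs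
  rcases iso_cx hg P Q R with h | h
  · rw [h]; exact hD.ne'
  · rw [h]; exact neg_ne_zero.mpr hD.ne'

/-- two triangles on the same side of a common edge have a common interior point -/
theorem same_side {P Q R R' : ℂ} (h : 0 < cx (Q - P) (R - P)) (h' : 0 < cx (Q - P) (R' - P)) :
    ∃ X, X ∈ interior (convexHull ℝ ({P, Q, R} : Set ℂ)) ∧
      X ∈ interior (convexHull ℝ ({P, Q, R'} : Set ℂ)) := by
  -- the points X = (P + Q) / 2 + ε i (Q - P)
  have key : ∀ S : ℂ, 0 < cx (Q - P) (S - P) → ∀ᶠ ε : ℝ in nhdsWithin (0:ℝ) (Set.Ioi 0),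
      (P + Q) / 2 + (ε : ℂ) * (I * (Q - P)) ∈ interior (convexHull ℝ ({P, Q, S} : Set ℂ)) := by
    intro S hS
    have hQP : 0 < normSq (Q - P) := by
      rw [normSq_pos]
      intro h0
      rw [h0] at hS
      simp [cx] at hS
    have c1 : ∀ ε : ℝ, cx (Q - P) ((P + Q) / 2 + (ε : ℂ) * (I * (Q - P)) - P) =
        ε * normSq (Q - P) := by
      intro ε
      rw [normSq_apply]
      unfold cx
      simp only [sub_re, sub_im, add_re, add_im, mul_re, mul_im, ofReal_re, ofReal_im, I_re, I_im,
        div_ofNat_re, div_ofNat_im]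
      ring
    have c2 : Continuous fun ε : ℝ => cx (S - Q) ((P + Q) / 2 + (ε : ℂ) * (I * (Q - P)) - Q) := by
      apply (cx_cont (S - Q) Q).comp
      fun_prop
    have c3 : Continuous fun ε : ℝ => cx (P - S) ((P + Q) / 2 + (ε : ℂ) * (I * (Q - P)) - S) := by
      apply (cx_cont (P - S) S).comp
      fun_prop
    have v2 : 0 < cx (S - Q) ((P + Q) / 2 + ((0:ℝ) : ℂ) * (I * (Q - P)) - Q) := by
      have : cx (S - Q) ((P + Q) / 2 + ((0:ℝ) : ℂ) * (I * (Q - P)) - Q) =
          cx (Q - P) (S - P) / 2 := by
        unfold cx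
        simp only [sub_re, sub_im, add_re, add_im, mul_re, mul_im, ofReal_re, ofReal_im, I_re,
          I_im, div_ofNat_re, div_ofNat_im]
        ring
      rw [this]; positivity
    have v3 : 0 < cx (P - S) ((P + Q) / 2 + ((0:ℝ) : ℂ) * (I * (Q - P)) - S) := by
      have : cx (P - S) ((P + Q) / 2 + ((0:ℝ) : ℂ) * (I * (Q - P)) - S) =
          cx (Q - P) (S - P) / 2 := by
        unfold cx
        simp only [sub_re, sub_im, add_re, add_im, mul_re, mul_im, ofReal_re, ofReal_im, I_re,
          I_im, div_ofNat_re, div_ofNat_im]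
        ring
      rw [this]; positivity
    have e2 := (c2.tendsto 0).eventually_const_lt v2
    have e3 := (c3.tendsto 0).eventually_const_lt v3
    have e2' := e2.filter_mono (nhdsWithin_le_nhds (s := Set.Ioi (0:ℝ)))
    have e3' := e3.filter_mono (nhdsWithin_le_nhds (s := Set.Ioi (0:ℝ)))
    filter_upwards [e2', e3', self_mem_nhdsWithin] with ε h2 h3 h0
    have h1 : 0 < cx (Q - P) ((P + Q) / 2 + (ε : ℂ) * (I * (Q - P)) - P) := by
      rw [c1]
      have : (0:ℝ) < ε := h0
      positivity
    have hid : IsIso (fun z : ℂ => z) := ⟨1, 0, by simp, Or.inl (by intro z; simp)⟩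
    exact iso_interior hid h1 h2 h3
  obtain ⟨ε, h1, h2⟩ := ((key R h).and (key R' h')).exists
  exact ⟨_, h1, h2⟩

theorem iso_dist {g : ℂ → ℂ} (hg : IsIso g) (P Q : ℂ) : normSq (g P - g Q) = normSq (P - Q) := by
  obtain ⟨c, t, hc, h | h⟩ := hg
  · rw [h, h]
    have : t + c * P - (t + c * Q) = c * (P - Q) := by ring
    rw [this, normSq_mul, hc, one_mul]
  · rw [h, h]
    have : t + c * (starRingEnd ℂ) P - (t + c * (starRingEnd ℂ) Q) =
      c * (starRingEnd ℂ) (P - Q) := by rw [map_sub]; ring
    rw [this, normSq_mul, hc, one_mul, normSq_conj]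

/-- gluing of two faces along an edge -/
theorem glue {g g' : ℂ → ℂ} (hg : IsIso g) (hg' : IsIso g') {a1 a2 a3 b1 b2 b3 : ℂ}
    (h1 : g a1 = g' b1) (h2 : g a2 = g' b2) (ha : 0 < cx (a2 - a1) (a3 - a1))
    (hb : cx (b2 - b1) (b3 - b1) < 0)
    (hd : Disjoint (interior (convexHull ℝ ({g a1, g a2, g a3} : Set ℂ)))
      (interior (convexHull ℝ ({g' b1, g' b2, g' b3} : Set ℂ)))) (z : ℂ) :
    g' z = g (a1 + (a2 - a1) / (b2 - b1) * (z - b1)) := by
  have hbne : b2 - b1 ≠ 0 := by
    intro h0
    rw [h0] at hb
    simp [cx] at hb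
  have hbne' : (starRingEnd ℂ) (b2 - b1) ≠ 0 := by
    intro h0
    apply hbne
    have := congrArg (starRingEnd ℂ) h0
    simpa using this
  have hg1 := hg
  have hg1' := hg'
  obtain ⟨c, t, hc, hf | hf⟩ := hg1
  · obtain ⟨c', t', hc', hf' | hf'⟩ := hg1'
    · rw [hf, hf'] at h1 h2
      rw [hf, hf']
      have e : c' * (b2 - b1) = c * (a2 - a1) := by linear_combination h1 - h2
      have : c' * (z - b1) = c * ((a2 - a1) / (b2 - b1) * (z - b1)) := by
        field_simp
        linear_combination (z - b1) * e
      linear_combination this - h1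
    · exfalso
      have k1 : 0 < cx (g a2 - g a1) (g a3 - g a1) := by
        have : cx (g a2 - g a1) (g a3 - g a1) = cx (a2 - a1) (a3 - a1) := by
          rw [hf, hf, hf]
          rw [normSq_apply] at hc
          unfold cx
          simp only [sub_re, sub_im, add_re, add_im, mul_re, mul_im]
          linear_combination ((a2.re - a1.re) * (a3.im - a1.im) -
            (a2.im - a1.im) * (a3.re - a1.re)) * hc
        rw [this]; exact ha
      have k2 : 0 < cx (g a2 - g a1) (g' b3 - g a1) := by
        have : cx (g' b2 - g' b1) (g' b3 - g' b1) = -cx (b2 - b1) (b3 - b1) := by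
          rw [hf', hf', hf']
          rw [normSq_apply] at hc'
          unfold cx
          simp only [sub_re, sub_im, add_re, add_im, mul_re, mul_im, conj_re, conj_im]
          linear_combination (-((b2.re - b1.re) * (b3.im - b1.im) -
            (b2.im - b1.im) * (b3.re - b1.re))) * hc'
        rw [h1, h2, this]; linarith
      obtain ⟨X, hX1, hX2⟩ := same_side k1 k2
      rw [← h1, ← h2] at hd
      exact Set.disjoint_left.mp hd hX1 hX2
  · obtain ⟨c', t', hc', hf' | hf'⟩ := hg1'
    · exfalso
      have k1 : 0 < cx (g a1 - g a2) (g a3 - g a2) := by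
        have : cx (g a1 - g a2) (g a3 - g a2) = cx (a2 - a1) (a3 - a1) := by
          rw [hf, hf, hf]
          rw [normSq_apply] at hc
          unfold cx
          simp only [sub_re, sub_im, add_re, add_im, mul_re, mul_im, conj_re, conj_im]
          linear_combination ((a2.re - a1.re) * (a3.im - a1.im) -
            (a2.im - a1.im) * (a3.re - a1.re)) * hc
        rw [this]; exact ha
      have k2 : 0 < cx (g a1 - g a2) (g' b3 - g a2) := by
        have : cx (g' b1 - g' b2) (g' b3 - g' b2) = -cx (b2 - b1) (b3 - b1) := by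
          rw [hf', hf', hf']
          rw [normSq_apply] at hc'
          unfold cx
          simp only [sub_re, sub_im, add_re, add_im, mul_re, mul_im]
          linear_combination (-((b2.re - b1.re) * (b3.im - b1.im) -
            (b2.im - b1.im) * (b3.re - b1.re))) * hc'
        rw [h1, h2, this]; linarith
      obtain ⟨X, hX1, hX2⟩ := same_side k1 k2
      rw [← h1, ← h2] at hd
      rw [Set.insert_comm] at hX1 hX2
      exact Set.disjoint_left.mp hd hX1 hX2
    · rw [hf, hf'] at h1 h2
      rw [hf, hf']
      have e : c' * (starRingEnd ℂ) (b2 - b1) = c * (starRingEnd ℂ) (a2 - a1) := by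
        rw [map_sub, map_sub]
        linear_combination h1 - h2
      have : c' * (starRingEnd ℂ) (z - b1) =
          c * (starRingEnd ℂ) ((a2 - a1) / (b2 - b1) * (z - b1)) := by
        rw [map_mul, map_div₀]
        field_simp
        linear_combination ((starRingEnd ℂ) (z - b1)) * e
      rw [map_add]
      rw [map_sub] at this
      linear_combination this - h1

/-- a configuration of points with the same distances as a model -/
theorem config {ι : Type} (x m : ι → ℂ) (hd : ∀ u v, normSq (x u - x v) = normSq (m u - m v))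
    (p q r : ι) (hr : cx (m q - m p) (m r - m p) ≠ 0) :
    ∃ g, IsIso g ∧ ∀ u, x u = g (m u) := by
  -- A u = (x u - x p) conj (x q - x p), a u = (m u - m p) conj (m q - m p)
  set A : ι → ℂ := fun u => (x u - x p) * (starRingEnd ℂ) (x q - x p) with hA
  set a : ι → ℂ := fun u => (m u - m p) * (starRingEnd ℂ) (m q - m p) with ha
  have hre : ∀ u, (A u).re = (a u).re := by
    intro u
    have e1 := hd u p
    have e2 := hd q p
    have e3 := hd u q
    simp only [normSq_apply, sub_re, sub_im] at e1 e2 e3
    simp only [hA, ha, mul_re, sub_re, sub_im, conj_re, conj_im]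
    linear_combination (e1 + e2 - e3) / 2
  have him : ∀ u v, (A u).im * (A v).im = (a u).im * (a v).im := by
    intro u v
    have e1 := hd u p
    have e2 := hd q p
    have e3 := hd v p
    have e4 := hd u v
    have r1 := hre u
    have r2 := hre v
    have k1 : (x q - x p).re * (x q - x p).re + (x q - x p).im * (x q - x p).im =
        (m q - m p).re * (m q - m p).re + (m q - m p).im * (m q - m p).im := by
      rw [← normSq_apply, ← normSq_apply]; exact e2
    have k2 : (x u - x p).re * (x v - x p).re + (x u - x p).im * (x v - x p).im =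
        (m u - m p).re * (m v - m p).re + (m u - m p).im * (m v - m p).im := by
      simp only [normSq_apply, sub_re, sub_im] at e1 e3 e4 ⊢
      linear_combination (e1 + e3 - e4) / 2
    have k3 : (A u).re * (A v).re + (A u).im * (A v).im =
        ((x q - x p).re * (x q - x p).re + (x q - x p).im * (x q - x p).im) *
        ((x u - x p).re * (x v - x p).re + (x u - x p).im * (x v - x p).im) := by
      simp only [hA, mul_re, mul_im, conj_re, conj_im]
      ring
    have k4 : (a u).re * (a v).re + (a u).im * (a v).im =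
        ((m q - m p).re * (m q - m p).re + (m q - m p).im * (m q - m p).im) *
        ((m u - m p).re * (m v - m p).re + (m u - m p).im * (m v - m p).im) := by
      simp only [ha, mul_re, mul_im, conj_re, conj_im]
      ring
    rw [k1, k2, ← k4, r1, r2] at k3
    linarith
  have har : (a r).im ≠ 0 := by
    intro h0
    apply hr
    simp only [ha, mul_im, conj_re, conj_im] at h0
    unfold cx
    linarith
  have hwne : m q - m p ≠ 0 := by
    intro h0
    apply hr
    rw [h0]; simp [cx]
  have hWne : x q - x p ≠ 0 := by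
    intro h0
    have e2 := hd q p
    rw [h0, map_zero] at e2
    exact hwne (normSq_eq_zero.mp e2.symm)
  have hWc : (starRingEnd ℂ) (x q - x p) ≠ 0 := by
    intro h0
    apply hWne
    have := congrArg (starRingEnd ℂ) h0
    simpa using this
  have hn : normSq (m q - m p) = normSq (x q - x p) := (hd q p).symm
  have hn0 : normSq (x q - x p) ≠ 0 := fun h0 => hWne (normSq_eq_zero.mp h0)
  have hrr := him r r
  have hcase : (A r).im = (a r).im ∨ (A r).im = -(a r).im := by
    have : ((A r).im - (a r).im) * ((A r).im + (a r).im) = 0 := by linear_combination hrr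
    rcases mul_eq_zero.mp this with h | h
    · left; linarith
    · right; linarith
  have hx : ∀ u, x u = x p + A u / (starRingEnd ℂ) (x q - x p) := by
    intro u
    simp only [hA]
    rw [mul_div_assoc, div_self hWc]
    ring
  rcases hcase with h | h
  · have hAu : ∀ u, A u = a u := by
      intro u
      apply Complex.ext (hre u)
      have := him u r
      rw [h] at this
      exact mul_right_cancel₀ har this
    refine ⟨fun z => x p - (starRingEnd ℂ) (m q - m p) / (starRingEnd ℂ) (x q - x p) * m p +
      (starRingEnd ℂ) (m q - m p) / (starRingEnd ℂ) (x q - x p) * z, ⟨_, _, ?_, Or.inl fun z => rfl⟩,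
      ?_⟩
    · rw [normSq_div, normSq_conj, normSq_conj, hn, div_self hn0]
    · intro u
      rw [hx u, hAu u]
      simp only [ha]
      ring
  · have hAu : ∀ u, A u = (starRingEnd ℂ) (a u) := by
      intro u
      apply Complex.ext
      · rw [conj_re]; exact hre u
      · rw [conj_im]
        have := him u r
        rw [h] at this
        have h2 : ((A u).im + (a u).im) * (a r).im = 0 := by linear_combination -this
        rcases mul_eq_zero.mp h2 with h3 | h3
        · linarith
        · exact absurd h3 har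
    refine ⟨fun z => x p - (m q - m p) / (starRingEnd ℂ) (x q - x p) * (starRingEnd ℂ) (m p) +
      (m q - m p) / (starRingEnd ℂ) (x q - x p) * (starRingEnd ℂ) z, ⟨_, _, ?_, Or.inr fun z => rfl⟩,
      ?_⟩
    · rw [normSq_div, normSq_conj, hn, div_self hn0]
    · intro u
      rw [hx u, hAu u]
      simp only [ha, map_mul, map_sub, conj_conj]
      ring

end Pool.Agent.NH97.Band
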