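import Pool.Agent.NH97.Band.Data

/-!
# Band unfoldings (helper97): the counterexample
-/

set_option autoImplicit false

namespace Pool.Agent.NH97.Band

open Complex

/-- cast -/
noncomputable def c (z : Q2) : ℂ := ⟨(z.1 : ℝ), (z.2 : ℝ)⟩

theorem c_add (z w : Q2) : c (z + w) = c z + c w := by
  apply Complex.ext <;> simp [c]

theorem c_sub (z w : Q2) : c (z - w) = c z - c w := by
  apply Complex.ext <;> simp [c]

theorem c_gm (z w : Q2) : c (gm z w) = c z * c w := by
  apply Complex.ext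
  · simp [c, gm]
  · simp [c, gm]

theorem cx_c (u v w : Q2) : cx (c v - c u) (c w - c u) = ((crq (v - u) (w - u) : ℚ) : ℝ) := by
  simp [cx, c, crq]

theorem cx_c' (u v w w' : Q2) : cx (c v - c u) (c w - c w') =
    ((crq (v - u) (w - w') : ℚ) : ℝ) := by
  simp [cx, c, crq]

theorem normSq_c (u v : Q2) : normSq (c u - c v) = ((sq2 u v : ℚ) : ℝ) := by
  simp [normSq_apply, c, sq2]

/-- the example -/
noncomputable def Ex : Prismoid 6 where
  three_le := by norm_num
  a := fun i => (((aq i).1 : ℝ), ((aq i).2 : ℝ))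
  b := fun i => (((bq i).1 : ℝ), ((bq i).2 : ℝ))
  h := 3
  h_pos := by norm_num
  a_conv := by
    intro i j h1 h2
    have := a_convq i j h1 h2
    have h3 : (0:ℝ) < ((crq (aq (i + 1) - aq i) (aq j - aq i) : ℚ) : ℝ) := by exact_mod_cast this
    have e : cr ((((aq (i + 1)).1 : ℝ), ((aq (i + 1)).2 : ℝ)) - (((aq i).1 : ℝ), ((aq i).2 : ℝ)))
        ((((aq j).1 : ℝ), ((aq j).2 : ℝ)) - (((aq i).1 : ℝ), ((aq i).2 : ℝ))) =
        ((crq (aq (i + 1) - aq i) (aq j - aq i) : ℚ) : ℝ) := by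
      simp [cr, crq]
    rw [e]
    exact h3
  b_conv := by
    intro i j h1 h2
    have := b_convq i j h1 h2
    have h3 : (0:ℝ) < ((crq (bq (i + 1) - bq i) (bq j - bq i) : ℚ) : ℝ) := by exact_mod_cast this
    have e : cr ((((bq (i + 1)).1 : ℝ), ((bq (i + 1)).2 : ℝ)) - (((bq i).1 : ℝ), ((bq i).2 : ℝ)))
        ((((bq j).1 : ℝ), ((bq j).2 : ℝ)) - (((bq i).1 : ℝ), ((bq i).2 : ℝ))) =
        ((crq (bq (i + 1) - bq i) (bq j - bq i) : ℚ) : ℝ) := by
      simp [cr, crq]
    rw [e]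
    exact h3
  parallel := by
    intro i
    obtain ⟨h1, h2, h3⟩ := parq i
    refine ⟨((ratq i : ℚ) : ℝ), by exact_mod_cast h1, ?_⟩
    have h2' : (((bq (i + 1) - bq i).1 : ℚ) : ℝ) = ((ratq i * (aq (i + 1) - aq i).1 : ℚ) : ℝ) := by
      rw [h2]
    have h3' : (((bq (i + 1) - bq i).2 : ℚ) : ℝ) = ((ratq i * (aq (i + 1) - aq i).2 : ℚ) : ℝ) := by
      rw [h3]
    apply Prod.ext
    · simpa using h2'
    · simpa using h3'

/-- vertices of the lateral faces -/
noncomputable def VV (m : Fin 6) (u : Fin 4) : E3 :=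
  !₂[((Vq m u).1.1 : ℝ), ((Vq m u).1.2 : ℝ), ((Vq m u).2 : ℝ)]

theorem VV0 (m : Fin 6) : VV m 0 = Ex.B m := by
  simp [VV, Vq, Prismoid.B, Ex]
theorem VV1 (m : Fin 6) : VV m 1 = Ex.B (m + 1) := by
  simp [VV, Vq, Prismoid.B, Ex]
theorem VV2 (m : Fin 6) : VV m 2 = Ex.A (m + 1) := by
  simp [VV, Vq, Prismoid.A, Ex]
theorem VV3 (m : Fin 6) : VV m 3 = Ex.A m := by
  simp [VV, Vq, Prismoid.A, Ex]

theorem VV_mem (m : Fin 6) (u : Fin 4) : VV m u ∈ Ex.face (.lat m) := by
  apply subset_convexHull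
  fin_cases u
  · left; exact VV0 m
  · right; left; exact VV1 m
  · right; right; left; exact VV2 m
  · right; right; right; exact VV3 m

theorem B_mem (v : Fin 6) : Ex.B v ∈ Ex.face .base :=
  subset_convexHull ℝ _ (Set.mem_range_self v)

theorem dist_VV (m : Fin 6) (u v : Fin 4) :
    dist (VV m u) (VV m v) ^ 2 = normSq (c (Mq m u) - c (Mq m v)) := by
  rw [normSq_c, ← dist_lat, EuclideanSpace.dist_eq, Real.sq_sqrt (by positivity)]
  simp [Fin.sum_univ_three, VV, sq3, sq2, Real.dist_eq, sq_abs]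
  ring

theorem dist_B (u v : Fin 6) : dist (Ex.B u) (Ex.B v) ^ 2 = normSq (c (Nq u) - c (Nq v)) := by
  rw [normSq_c, EuclideanSpace.dist_eq, Real.sq_sqrt (by positivity)]
  simp [Fin.sum_univ_three, Prismoid.B, Ex, sq2, Nq, Real.dist_eq, sq_abs]
  ring

theorem image_convex {C : Set E3} (hC : Convex ℝ C) {f : E3 → ℂ}
    (hf : ∀ x ∈ C, ∀ y ∈ C, dist (f x) (f y) = dist x y) : Convex ℝ (f '' C) := by
  rw [convex_iff_segment_subset]
  rintro _ ⟨x, hx, rfl⟩ _ ⟨y, hy, rfl⟩ z hz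
  rw [segment_eq_image_lineMap] at hz
  obtain ⟨t, ht, rfl⟩ := hz
  have hm : AffineMap.lineMap x y t ∈ C := hC.lineMap_mem hx hy ht
  refine ⟨AffineMap.lineMap x y t, hm, ?_⟩
  apply eq_lineMap_of_dist_eq_mul_of_dist_eq_mul
  · rw [hf _ hx _ hm, hf _ hx _ hy, dist_left_lineMap, Real.norm_of_nonneg ht.1]
  · rw [hf _ hm _ hy, hf _ hx _ hy, dist_lineMap_right, Real.norm_of_nonneg (by linarith [ht.2])]

theorem tri_sub {C : Set E3} (hC : Convex ℝ C) {f : E3 → ℂ}
    (hf : ∀ x ∈ C, ∀ y ∈ C, dist (f x) (f y) = dist x y) {x y z : E3} (hx : x ∈ C) (hy : y ∈ C)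
    (hz : z ∈ C) : interior (convexHull ℝ ({f x, f y, f z} : Set ℂ)) ⊆ interior (f '' C) := by
  apply interior_mono
  apply convexHull_min _ (image_convex hC hf)
  rintro w (rfl | rfl | rfl)
  · exact ⟨x, hx, rfl⟩
  · exact ⟨y, hy, rfl⟩
  · exact ⟨z, hz, rfl⟩

theorem face_convex (F : Face 6) : Convex ℝ (Ex.face F) := by
  cases F <;> exact convex_convexHull ℝ _

theorem not_net (i j k : Fin 6) (φ : Face 6 → E3 → ℂ) : ¬ IsBandNet Ex i j k φ := by
  intro H
  -- positions of the lateral faces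
  have hlat : ∀ m : Fin 6, ∃ g, IsIso g ∧ ∀ u, φ (.lat m) (VV m u) = g (c (Mq m u)) := by
    intro m
    apply config (fun u => φ (.lat m) (VV m u)) (fun u => c (Mq m u)) ?_ 0 1 2
    · show cx (c (Mq m 1) - c (Mq m 0)) (c (Mq m 2) - c (Mq m 0)) ≠ 0
      rw [cx_c]
      have := side_c m
      exact_mod_cast this.ne'
    · intro u v
      show normSq (φ (.lat m) (VV m u) - φ (.lat m) (VV m v)) = normSq (c (Mq m u) - c (Mq m v))
      rw [← dist_VV, normSq_eq_norm_sq, ← dist_eq_norm,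
        H.isom _ _ (VV_mem m u) _ (VV_mem m v)]
  choose g hg hgv using hlat
  obtain ⟨gB, hgB, hgBv⟩ : ∃ gB, IsIso gB ∧ ∀ v, φ .base (Ex.B v) = gB (c (Nq v)) := by
    apply config (fun v => φ .base (Ex.B v)) (fun v => c (Nq v)) ?_ k (k + 1) (k + 2)
    · show cx (c (Nq (k + 1)) - c (Nq k)) (c (Nq (k + 2)) - c (Nq k)) ≠ 0
      rw [cx_c]
      have := side_d k
      exact_mod_cast this.ne
    · intro u v
      show normSq (φ .base (Ex.B u) - φ .base (Ex.B v)) = normSq (c (Nq u) - c (Nq v))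
      rw [← dist_B, normSq_eq_norm_sq, ← dist_eq_norm, H.isom _ _ (B_mem u) _ (B_mem v)]
  -- gluing along side edges
  have glueS : ∀ m : Fin 6, m + 1 ≠ i → ∀ z : Q2, g (m + 1) (c z) = g m (c (Tq m z)) := by
    intro m hm z
    have e1 : g m (c (Mq m 1)) = g (m + 1) (c (Mq (m + 1) 0)) := by
      rw [← hgv, ← hgv, VV1, VV0]
      exact H.side m hm _ (left_mem_segment ℝ _ _)
    have e2 : g m (c (Mq m 2)) = g (m + 1) (c (Mq (m + 1) 3)) := by
      rw [← hgv, ← hgv, VV2, VV3]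
      exact H.side m hm _ (right_mem_segment ℝ _ _)
    have key := glue (hg m) (hg (m + 1)) (a3 := c (Mq m 0)) (b3 := c (Mq (m + 1) 1)) e1 e2
      (by rw [cx_c]; exact_mod_cast side_a m) (by rw [cx_c]; exact_mod_cast side_b (m + 1))
      (by
        have hd := H.disj (.lat m) (.lat (m + 1)) (by
          intro h
          injection h with h
          revert h
          fin_cases m <;> decide)
        refine hd.mono ?_ ?_
        · rw [← hgv, ← hgv, ← hgv]
          exact tri_sub (face_convex _) (H.isom _) (VV_mem m 1) (VV_mem m 2) (VV_mem m 0)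
        · rw [← hgv, ← hgv, ← hgv]
          exact tri_sub (face_convex _) (H.isom _) (VV_mem (m+1) 0) (VV_mem (m+1) 3)
            (VV_mem (m+1) 1)) (c z)
    rw [key]
    congr 1
    have hne : c (Mq (m + 1) 3) - c (Mq (m + 1) 0) ≠ 0 := by
      intro h0
      have h1 : cx (c (Mq (m + 1) 3) - c (Mq (m + 1) 0)) (c (Mq (m + 1) 1) - c (Mq (m + 1) 0)) < 0 :=
        by rw [cx_c]; exact_mod_cast side_b (m + 1)
      rw [h0] at h1
      simp [cx] at h1
    have hr : (c (Mq m 2) - c (Mq m 1)) / (c (Mq (m + 1) 3) - c (Mq (m + 1) 0)) = c (rq m) := by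
      rw [div_eq_iff hne, ← c_sub, ← c_sub, ← c_gm, rq_eq]
    have h0 : c (Mq (m + 1) 0) = 0 := by simp [Mq, c, Complex.ext_iff]
    rw [hr, h0, sub_zero]
    unfold Tq
    rw [c_add, c_gm]
    rfl
  -- gluing of the base
  have glueB : ∀ z : Q2, gB (c z) = g k (c (TBq k z)) := by
    intro z
    have e1 : g k (c (Mq k 0)) = gB (c (Nq k)) := by
      rw [← hgv, ← hgBv, VV0]
      exact H.base _ (left_mem_segment ℝ _ _)
    have e2 : g k (c (Mq k 1)) = gB (c (Nq (k + 1))) := by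
      rw [← hgv, ← hgBv, VV1]
      exact H.base _ (right_mem_segment ℝ _ _)
    have key := glue (hg k) hgB (a3 := c (Mq k 2)) (b3 := c (Nq (k + 2))) e1 e2
      (by rw [cx_c]; exact_mod_cast side_c k) (by rw [cx_c]; exact_mod_cast side_d k)
      (by
        have hd := H.disj (.lat k) .base (by intro h; cases h)
        refine hd.mono ?_ ?_
        · rw [← hgv, ← hgv, ← hgv]
          exact tri_sub (face_convex _) (H.isom _) (VV_mem k 0) (VV_mem k 1) (VV_mem k 2)
        · rw [← hgBv, ← hgBv, ← hgBv]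
          exact tri_sub (face_convex _) (H.isom _) (B_mem k) (B_mem (k+1)) (B_mem (k+2))) (c z)
    rw [key]
    congr 1
    have hne : c (Nq (k + 1)) - c (Nq k) ≠ 0 := by
      intro h0
      have h1 : cx (c (Nq (k + 1)) - c (Nq k)) (c (Nq (k + 2)) - c (Nq k)) < 0 :=
        by rw [cx_c]; exact_mod_cast side_d k
      rw [h0] at h1
      simp [cx] at h1
    have hr : (c (Mq k 1) - c (Mq k 0)) / (c (Nq (k + 1)) - c (Nq k)) = c (sg k) := by
      rw [div_eq_iff hne, ← c_sub, ← c_sub, ← c_gm, sg_eq]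
    have h0 : c (Mq k 0) = 0 := by simp [Mq, c, Complex.ext_iff]
    rw [hr, h0, zero_add]
    unfold TBq
    rw [c_gm, c_sub]
  -- chains
  have chain : ∀ (r : ℕ) (f : Fin 6), okq i r f = true → ∀ z : Q2,
      g (adv r f) (c z) = g f (c (it r f z)) := by
    intro r
    induction r with
    | zero => intro f _ z; rfl
    | succ r ih =>
      intro f hf z
      simp only [okq, Bool.and_eq_true, decide_eq_true_eq] at hf
      show g (adv r (f + 1)) (c z) = g f (c (Tq f (it r (f + 1) z)))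
      rw [ih (f + 1) hf.2 z, glueS f hf.1]
  -- the overlap
  obtain ⟨e, he, hk, ok1, ok2⟩ := cover i k
  obtain ⟨hB, hF⟩ := chk_all e he
  have pB : ∀ v, φ .base (Ex.B v) = g e.f0 (c (it e.rB e.f0 (TBq (adv e.rB e.f0) (Nq v)))) := by
    intro v
    rw [hgBv, glueB, ← chain e.rB e.f0 ok1, hk]
  have pF : ∀ v, φ (.lat (adv e.rF e.f0)) (VV (adv e.rF e.f0) v) =
      g e.f0 (c (it e.rF e.f0 (Mq (adv e.rF e.f0) v))) := by
    intro v
    rw [hgv, ← chain e.rF e.f0 ok2]
  have i1 : g e.f0 (c e.W) ∈ interior (φ .base '' Ex.face .base) := by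
    apply tri_sub (face_convex _) (H.isom _) (B_mem e.u1) (B_mem e.u2) (B_mem e.u3)
    rw [pB, pB, pB]
    apply iso_interior (hg e.f0)
    · rw [cx_c]; exact_mod_cast hB.1
    · rw [cx_c]; exact_mod_cast hB.2.1
    · rw [cx_c]; exact_mod_cast hB.2.2
  have i2 : g e.f0 (c e.W) ∈ interior (φ (.lat (adv e.rF e.f0)) '' Ex.face (.lat (adv e.rF e.f0))) := by
    apply tri_sub (face_convex _) (H.isom _) (VV_mem _ e.v1) (VV_mem _ e.v2) (VV_mem _ e.v3)
    rw [pF, pF, pF]
    apply iso_interior (hg e.f0)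
    · rw [cx_c]; exact_mod_cast hF.1
    · rw [cx_c]; exact_mod_cast hF.2.1
    · rw [cx_c]; exact_mod_cast hF.2.2
  exact Set.disjoint_left.mp (H.disj .base (.lat (adv e.rF e.f0)) (by intro h; cases h)) i1 i2

/-- There is a prismoid all of whose band unfoldings overlap. -/
theorem exists_prismoid : ∃ P : Prismoid 6, ∀ i j k : Fin 6, ¬ ∃ φ, IsBandNet P i j k φ :=
  ⟨Ex, fun i j k ⟨φ, h⟩ => not_net i j k φ h⟩

end Pool.Agent.NH97.Band
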